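import Pool.Agent.Work.MP_972ac7_F.Final2

/-!
Uniform spectral gap in all unitary representations with values in finite von Neumann algebras, and
property tau, for the norm one groups, over the ring of the functions which are regular outside of the
places at infinity, of the quaternion division algebras over a global function field of odd
characteristic which split at two or more places at infinity, and for all groups commensurable with
them.  By the arithmeticity theorem (Margulis, Venkataramana) these groups are, up to
commensurability, all the cocompact irreducible lattices in the products of at least two groups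
`SL₂(k)`, `k` a local field of odd characteristic.
-/

open Polynomial Pool.TFD Pool.TC
open scoped Quaternion

noncomputable section

namespace Pool.Agent.Results.MP_972ac7_al.FunctionFieldQuaternionGap

/-- The group of the elements of norm one (`x x* = x* x = 1`) of the ring of quaternions with
coordinates in the commutative ring `R` and with `i² = a`, `j² = b`, `i j = - j i = k`. -/
def QuaternionNormOne (R : Type) [CommRing R] (a b : R) : Type := unitary ℍ[R, a, b]

instance instGroupQuaternionNormOne (R : Type) [CommRing R] (a b : R) :
    Group (QuaternionNormOne R a b) := (inferInstance : Group (unitary ℍ[R, a, b]))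

/-- The quaternion algebra `(a, b)` over `F` is a division algebra: its norm form has no nontrivial
zero. -/
def IsDivision {F : Type} [Field F] (a b : F) : Prop :=
  ∀ x y z t : F, x ^ 2 - a * y ^ 2 - b * z ^ 2 + a * b * t ^ 2 = 0 →
    x = 0 ∧ y = 0 ∧ z = 0 ∧ t = 0

/-- The quaternion algebra `(a, b)` over `F` splits at the place of `F` with the valuation ring `V`:
there is a norm `x² - a y²` which is nearer to `b` than `0` is.  (If `2` is a unit of `V` this means,
by the lemma of Hensel, that `b` is a norm `x² - a y²` over the completion of `F` at `V`.) -/
def IsSplitAt {F : Type} [Field F] (a b : F) (V : ValuationSubring F) : Prop :=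
  ∃ x y : F, V.valuation (x ^ 2 - a * y ^ 2 - b) < V.valuation b

variable (Fq : Type) [Field Fq] {F : Type} [Field F] [Algebra Fq[X] F]

/-- The place of `F` with the valuation ring `V` is at infinity: the function `X` has a pole there. -/
def IsAtInfty (V : ValuationSubring F) : Prop := algebraMap Fq[X] F X ∉ V

/-- The quaternion algebra `(a, b)` over `F` splits at two or more places of `F` at infinity. -/
def SplitsTwiceAtInfty (a b : F) : Prop :=
  ∃ V W : ValuationSubring F, V ≠ W ∧ IsAtInfty Fq V ∧ IsAtInfty Fq W ∧
    IsSplitAt a b V ∧ IsSplitAt a b W

/-- The ring of the functions in `F` which are regular outside of the places at infinity: the integral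
closure of the ring of polynomials `Fq[X]` in `F`. -/
abbrev O (F : Type) [Field F] [Algebra Fq[X] F] : Type := FunctionField.ringOfIntegers Fq F

variable {Fq}

/-- The group of the elements of norm one of the quaternions `(a, b)` over `O`. -/
def NormOneGroup (a b : O Fq F) : Type := QuaternionNormOne (O Fq F) a b

instance instGroupNormOneGroup (a b : O Fq F) : Group (NormOneGroup a b) :=
  instGroupQuaternionNormOne (O Fq F) a b

/-- Let `Fq` be a finite field of odd characteristic, `F` a finite separable extension of `Fq(X)`, let
`a, b` be elements of the integral closure `O` of `Fq[X]` in `F` such that the quaternion algebra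
`(a, b)` over `F` is a division algebra, and suppose that it splits at two or more places of `F` at
infinity (the poles of `X`).  Let `G` be the group of the elements of norm one of the quaternions
`(a, b)` over `O`. Then every group `Γ` which has a finite index subgroup that is a homomorphic image
of a subgroup `B` of finite index of `G` (in particular `G` itself, its quotient by the centre, and
every group commensurable with these) has a uniform spectral gap in all unitary representations with
values in von Neumann algebras with a faithful finite trace, and it has property tau with respect to
all its finite-index subgroups. -/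
theorem result (Fq : Type) [Field Fq] [Finite Fq] (h2 : (2 : Fq) ≠ 0) (F : Type) [Field F]
    [Algebra (RatFunc Fq) F] [Algebra Fq[X] F] [IsScalarTower Fq[X] (RatFunc Fq) F]
    [FunctionField Fq F] [Algebra.IsSeparable (RatFunc Fq) F] (a b : O Fq F)
    (hd : IsDivision (a : F) (b : F)) (h : SplitsTwiceAtInfty Fq (a : F) (b : F))
    (B : Subgroup (NormOneGroup a b)) (hB : B.FiniteIndex)
    (Γ : Type) [Group Γ] (f : B →* Γ) (hf : f.range.FiniteIndex) :
    TracialGap Γ ∧ PropTau Γ := by
  refine Pool.FQ.theoremFQV Fq F h2 a b hd ?_ B hB Γ f hf
  have hX : algebraMap Fq[X] F X = algebraMap (RatFunc Fq) F RatFunc.X := by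
    rw [IsScalarTower.algebraMap_apply Fq[X] (RatFunc Fq) F, RatFunc.algebraMap_X]
  obtain ⟨V, W, hVW, h3, h4, h5, h6⟩ := h
  refine ⟨V, W, hVW, ?_, ?_, h5, h6⟩
  · rw [← hX]
    exact h3
  · rw [← hX]
    exact h4

end Pool.Agent.Results.MP_972ac7_al.FunctionFieldQuaternionGap
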