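import Pool.Agent.Work.MP_972ac7_Q.Final

/-!
Uniform spectral gap in all unitary representations with values in finite von Neumann algebras, and
property tau, for the norm one groups over `O[1/n]` of the quaternion division algebras over a number
field which split at two or more of the places concerned, and for all groups commensurable with them.
By the arithmeticity theorem of Margulis these groups are, up to commensurability, all the cocompact
irreducible lattices in the products of at least two groups `SL₂(k)`, `k` real, complex or `p`-adic.
-/

open NumberField IsDedekindDomain Pool.TFD Pool.TC
open scoped Quaternion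

namespace Pool.Agent.Results.MP_972ac7_al.QuaternionLatticeGap

/-- The group of the elements of norm one (`x x* = x* x = 1`) of the ring of quaternions with
coordinates in the commutative ring `R` and with `i² = a`, `j² = b`, `i j = - j i = k`. -/
abbrev NormOneGroup (R : Type) [CommRing R] (a b : R) : Type := unitary ℍ[R, a, b]

/-- The quaternion algebra `(a, b)` over the number field `F` is a division algebra: its norm form
has no nontrivial zero. -/
def IsDivision {F : Type} [Field F] [NumberField F] (a b : 𝓞 F) : Prop :=
  ∀ x y z t : F, x ^ 2 - (a : F) * y ^ 2 - (b : F) * z ^ 2 + (a : F) * (b : F) * t ^ 2 = 0 →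
    x = 0 ∧ y = 0 ∧ z = 0 ∧ t = 0

/-- The places of the number field `F`: the maximal ideals of its ring of integers, and the
archimedean (real or complex) places. -/
abbrev Place (F : Type) [Field F] [NumberField F] : Type :=
  HeightOneSpectrum (𝓞 F) ⊕ InfinitePlace F

/-- The quaternion algebra `(a, b)` splits over the completion of `F` at the place `p`: there `b` is
a norm `x² - a y²`. -/
def IsSplitAt {F : Type} [Field F] [NumberField F] (a b : 𝓞 F) : Place F → Prop
  | .inl w => ∃ x y : w.adicCompletion F,
      x ^ 2 - algebraMap (𝓞 F) (w.adicCompletion F) a * y ^ 2 =
        algebraMap (𝓞 F) (w.adicCompletion F) b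
  | .inr w => ∃ x y : w.Completion, x ^ 2 - algebraMap F w.Completion (a : F) * y ^ 2 =
      algebraMap F w.Completion (b : F)

/-- The place `p` is archimedean, or it is a maximal ideal which contains `n`. -/
def IsOver {F : Type} [Field F] [NumberField F] (n : 𝓞 F) : Place F → Prop
  | .inl w => n ∈ w.asIdeal
  | .inr _ => True

/-- Let `F` be a number field with ring of integers `O`, let `a, b` be elements of `O` such that the
quaternion algebra `(a, b)` over `F` is a division algebra, let `n` be a nonzero element of `O`, and
suppose that the algebra splits at two or more places of `F` which are archimedean or contain `n`.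
Let `G` be the group of the elements of norm one of the quaternions `(a, b)` over `O[1/n]`. Then
every group `Γ` which has a finite index subgroup that is a homomorphic image of a subgroup `B` of
finite index of `G` (in particular `G` itself, its quotient by the centre, and every group
commensurable with these) has a uniform spectral gap in all unitary representations with values in
von Neumann algebras with a faithful finite trace, and it has property tau with respect to all its
finite-index subgroups. -/
theorem result (F : Type) [Field F] [NumberField F] (a b n : 𝓞 F) (hd : IsDivision a b)
    (hn : n ≠ 0)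
    (h : ∃ p q : Place F, p ≠ q ∧ IsOver n p ∧ IsOver n q ∧ IsSplitAt a b p ∧ IsSplitAt a b q)
    (B : Subgroup (NormOneGroup (Localization.Away n) (algebraMap (𝓞 F) (Localization.Away n) a)
      (algebraMap (𝓞 F) (Localization.Away n) b))) (hB : B.FiniteIndex)
    (Γ : Type) [Group Γ] (f : B →* Γ) (hf : f.range.FiniteIndex) :
    TracialGap Γ ∧ PropTau Γ := by
  refine Pool.PQ.theoremPP F a b n hd hn ?_ B hB Γ f hf
  obtain ⟨p, q, h1, h2, h3, h4, h5⟩ := h
  refine ⟨p, q, h1, ?_, ?_, ?_, ?_⟩
  · cases p <;> exact h2
  · cases q <;> exact h3
  · cases p <;> exact h4
  · cases q <;> exact h5

end Pool.Agent.Results.MP_972ac7_al.QuaternionLatticeGap
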