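import Pool.Agent.Work.MP_972ac7_B.Final

/-!
Let `Γ` be a cocompact lattice with dense commensurator in `G`, and let `Λ` be a cocompact lattice in
`H`, mapped into `Γ` by a continuous homomorphism `φ : H → G` whose image contracts enough elements.
If `Λ` has a uniform spectral gap in all unitary representations with values in finite von Neumann
algebras (as the norm one groups of the quaternion algebras over number fields which split at two or
more places have it, a fact which is part of the theorem and not a hypothesis), then `Γ` has it too,
and `Γ` has property tau with respect to all its finite-index subgroups.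
-/

open NumberField IsDedekindDomain Pool.TFD Pool.TC
open scoped Quaternion

namespace Pool.Agent.Results.MP_972ac7_al.QuaternionicSubgroupGap

/-- The group of the elements of norm one (`x x* = x* x = 1`) of the ring of quaternions with
coordinates in the commutative ring `R` and with `i² = a`, `j² = b`, `i j = - j i = k`. -/
abbrev NormOneGroup (R : Type) [CommRing R] (a b : R) : Type := unitary ℍ[R, a, b]

/-- The quaternion algebra `(a, b)` over the number field `F` is a division algebra: its norm form
has no nontrivial zero. -/
def IsDivision {F : Type} [Field F] [NumberField F] (a b : 𝓞 F) : Prop :=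
  ∀ x y z t : F, x ^ 2 - (a : F) * y ^ 2 - (b : F) * z ^ 2 + (a : F) * (b : F) * t ^ 2 = 0 →
    x = 0 ∧ y = 0 ∧ z = 0 ∧ t = 0

/-- The places of the number field `F`: the maximal ideals of its ring of integers, and the
archimedean (real or complex) places. -/
abbrev Place (F : Type) [Field F] [NumberField F] : Type :=
  HeightOneSpectrum (𝓞 F) ⊕ InfinitePlace F

/-- The quaternion algebra `(a, b)` splits over the completion of `F` at the place `p`: there `b` is
a norm `x² - a y²`. -/
def IsSplitAt {F : Type} [Field F] [NumberField F] (a b : 𝓞 F) : Place F → Prop
  | .inl w => ∃ x y : w.adicCompletion F,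
      x ^ 2 - algebraMap (𝓞 F) (w.adicCompletion F) a * y ^ 2 =
        algebraMap (𝓞 F) (w.adicCompletion F) b
  | .inr w => ∃ x y : w.Completion, x ^ 2 - algebraMap F w.Completion (a : F) * y ^ 2 =
      algebraMap F w.Completion (b : F)

/-- The place `p` is archimedean, or it is a maximal ideal which contains `n`. -/
def IsOver {F : Type} [Field F] [NumberField F] (n : 𝓞 F) : Place F → Prop
  | .inl w => n ∈ w.asIdeal
  | .inr _ => True

/-- The quaternion algebra `(a, b)` splits at two or more places of `F` that are archimedean or
contain `n`. -/
def SplitsTwice {F : Type} [Field F] [NumberField F] (a b n : 𝓞 F) : Prop :=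
  ∃ p q : Place F, p ≠ q ∧ IsOver n p ∧ IsOver n q ∧ IsSplitAt a b p ∧ IsSplitAt a b q

/-- `Λ` has a subgroup of finite index which is a homomorphic image of a subgroup of finite index of
the norm one group over `O[1/n]` of a quaternion division algebra over the number field `F`, `n` a
nonzero integer of `F`, which splits at two or more places that are archimedean or contain `n`. -/
def IsQuaternionicOver (F : Type) [Field F] [NumberField F] (Λ : Type) [Group Λ] : Prop :=
  ∃ a b n : 𝓞 F, IsDivision a b ∧ n ≠ 0 ∧ SplitsTwice a b n ∧
    ∃ B : Subgroup (NormOneGroup (Localization.Away n) (algebraMap (𝓞 F) (Localization.Away n) a)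
      (algebraMap (𝓞 F) (Localization.Away n) b)), B.FiniteIndex ∧
    ∃ f : B →* Λ, f.range.FiniteIndex

/-- `Λ` is quaternionic over some number field. -/
def IsQuaternionic (Λ : Type) [Group Λ] : Prop :=
  ∃ (F : Type) (_ : Field F) (_ : NumberField F), IsQuaternionicOver F Λ

section groups

variable {G H : Type} [Group G] [TopologicalSpace G] [Group H]

/-- The element `u` of `G` is contracted by an element `h` of `H`: `φ(h)^n u φ(h)^(-n)` tends to `1`
as `n` tends to infinity. -/
def IsContracted (φ : H →* G) (u : G) : Prop :=
  ∃ h : H, Filter.Tendsto (fun n : ℕ => φ h ^ n * u * (φ h ^ n)⁻¹) Filter.atTop (nhds 1)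

/-- `G` is the product of a compact set and of the closed subgroup which is topologically generated
by the elements contracted by elements of `H`. -/
def ContractsCocompactly (φ : H →* G) : Prop :=
  ∃ C : Set G, IsCompact C ∧ ∀ g : G, ∃ x ∈ C,
    ∃ u ∈ closure ((Subgroup.closure {u : G | IsContracted φ u} : Subgroup G) : Set G), g = x * u

end groups

/-- Let `G` and `H` be locally compact second countable Hausdorff groups, `Γ` a discrete subgroup of
`G` with compact quotient and with dense commensurator, `Λ` a discrete subgroup of `H` with compact
quotient, and `φ : H → G` a continuous homomorphism with `φ(Λ) ⊆ Γ` which contracts cocompactly. Let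
`Λ` be quaternionic, or more generally let `Λ` have the tracial gap. Then every group `Δ` which has a
finite index subgroup that is a homomorphic image of a subgroup `B` of finite index of `Γ` (in
particular `Γ` itself) has a uniform spectral gap in all unitary representations with values in von
Neumann algebras with a faithful finite trace, and it has property tau with respect to all its
finite-index subgroups. -/
theorem result (G H : Type)
    [Group G] [TopologicalSpace G] [IsTopologicalGroup G] [LocallyCompactSpace G]
    [SecondCountableTopology G] [T2Space G]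
    [Group H] [TopologicalSpace H] [IsTopologicalGroup H] [LocallyCompactSpace H]
    [SecondCountableTopology H] [T2Space H]
    (Γ : Subgroup G) [DiscreteTopology Γ] [CompactSpace (G ⧸ Γ)]
    (hΓ : Dense (Subgroup.Commensurable.commensurator Γ : Set G))
    (Λ : Subgroup H) [DiscreteTopology Λ] [CompactSpace (H ⧸ Λ)]
    (φ : H →* G) (hφ : Continuous φ) (hφΛ : ∀ y ∈ Λ, φ y ∈ Γ) (hC : ContractsCocompactly φ)
    (hΛ : IsQuaternionic Λ ∨ TracialGap Λ)
    (Δ : Type) [Group Δ] (B : Subgroup Γ) (hB : B.FiniteIndex) (f : B →* Δ)
    (hf : f.range.FiniteIndex) : TracialGap Δ ∧ PropTau Δ := by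
  have hgap : TracialGap Λ := by
    rcases hΛ with ⟨F, _, _, a, b, n, hd, hn, ⟨p, q, h1, h2, h3, h4, h5⟩, B', hB', f', hf'⟩ | h
    · refine (Pool.PQ.theoremPP F a b n hd hn ⟨p, q, h1, ?_, ?_, ?_, ?_⟩ B' hB' Λ f' hf').1
      · cases p <;> exact h2
      · cases q <;> exact h3
      · cases p <;> exact h4
      · cases q <;> exact h5
    · exact h
  obtain ⟨C, hC, hgen⟩ := hC
  exact Pool.BS.theoremBS G H Γ hΓ Λ φ hφ hφΛ C hC hgen hgap Δ B hB f hf

end Pool.Agent.Results.MP_972ac7_al.QuaternionicSubgroupGap
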