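import Pool.Agent.Work.MP_972ac7_C.Gap

/-!
Uniform spectral gap for all unitary representations in finite von Neumann algebras (in particular
property tau) for the lattices in a product of two locally compact groups with a spectral gap of one
of the factors on `L²₀(G/Γ)`.
-/

open MeasureTheory Pool.TFD Pool.TC

namespace Pool.Agent.Results.MP_972ac7_al.TracialSpectralGap

/-- Let `GA`, `GB` be locally compact second countable groups which are topologically generated by
contractible elements, `Γ` a discrete subgroup of `GA × GB` with dense projection to `GB` and with a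
`GA × GB`-invariant probability measure `m` on `(GA × GB) ⧸ Γ`, such that the second factor has a
spectral gap on `L²₀`. Then every group `Δ` with a finite index subgroup which is a homomorphic image
of a finite index subgroup of `Γ` (for instance `Γ` itself) has a uniform spectral gap in all unitary
representations with values in von Neumann algebras with a faithful finite trace, and it has
property tau. -/
theorem result : ∀ (GA GB : Type)
    [Group GA] [TopologicalSpace GA] [IsTopologicalGroup GA] [LocallyCompactSpace GA]
    [SecondCountableTopology GA] [T2Space GA] [MeasurableSpace GA] [BorelSpace GA]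
    [Group GB] [TopologicalSpace GB] [IsTopologicalGroup GB] [LocallyCompactSpace GB]
    [SecondCountableTopology GB] [T2Space GB] [MeasurableSpace GB] [BorelSpace GB]
    (Γ : Subgroup (GA × GB)) (m : Measure ((GA × GB) ⧸ Γ)),
    DiscreteTopology Γ → IsProbabilityMeasure m →
    (∀ g : GA × GB, MeasurePreserving (fun x => g • x) m m) →
    Dense (Set.range fun γ : Γ => (γ : GA × GB).2) → ContrGen GA → ContrGen GB → StrongGap Γ m →
    ∀ (Δ : Type) [Group Δ] (K : Subgroup Γ) (f : K →* Δ), K.FiniteIndex → f.range.FiniteIndex →
      TracialGap Δ ∧ PropTau Δ := by
  intro GA GB _ _ _ _ _ _ _ _ _ _ _ _ _ _ _ _ Γ m hΓ hm hinv hd hA hB hgap Δ _ K f hK hf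
  obtain ⟨h1, h2⟩ := allC GA GB Γ m hΓ hm hinv hd hA hB hgap Δ K f hK hf
  exact ⟨tracialGap_of_FTGap Δ h1, h2⟩

end Pool.Agent.Results.MP_972ac7_al.TracialSpectralGap
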